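import Pool.Agent.Helper1.SC.Final3

/-!
# MP_36c81c_nt: many almost primes with at most three prime factors in `(n², n² + φ(n)]`, for every
`n`
-/

set_option autoImplicit false

namespace Pool.Agent.Results.MP_36c81c_nt.AlmostPrimeThree

/-- For every `n ≥ 1` at least `φ(n) / (110 log(n + 1))` integers `m` with `n² < m ≤ n² + φ(n)` have
at most three prime factors, counted with multiplicity, and each prime factor `p` of `m` satisfies
`p^8 > n`. -/
theorem result :
    ∀ n : ℕ, 0 < n → (Nat.totient n : ℝ) / (110 * Real.log ((n : ℝ) + 1)) ≤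
      (({m : ℕ | n ^ 2 < m ∧ m ≤ n ^ 2 + Nat.totient n ∧ ArithmeticFunction.cardFactors m ≤ 3 ∧
        ∀ p : ℕ, p.Prime → p ∣ m → n < p ^ 8}.ncard : ℕ) : ℝ) := by
  intro n hn
  have h1 := Pool.Agent.Helper1.SQ.target3 n hn
  have h2 : (1 : ℝ) < (n : ℝ) + 1 := by
    have : (0 : ℝ) < n := by exact_mod_cast hn
    linarith
  have h3 : 0 < 110 * Real.log ((n : ℝ) + 1) := mul_pos (by norm_num) (Real.log_pos h2)
  rw [div_le_iff₀ h3, mul_comm]
  exact h1

end Pool.Agent.Results.MP_36c81c_nt.AlmostPrimeThree
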