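import Mathlib
import Pool.Agent.Helper87.QU.Uniform
import Pool.Agent.Helper68.QB.ParU

/-!
MP_36c81c_nt, Q1 (parity form, almost all windows).  There is `C` such that for `0 < ε ≤ 1`, `N ≥ N₀(ε)`
and real `y ≥ 1`, `y ^ 10 ≤ N ^ ε`, all but `y ^ 10 exp (C √(log N))` of the `m ∈ (N, 2 N]` have the
following property: EVERY interval `(x, x + L]` with `m ^ 2 - m ≤ x ≤ m ^ 2 + m` and `L ≥ m / y`
contains at least `m ^ (1 - ε)` integers with an even and at least `m ^ (1 - ε)` integers with an odd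
number of prime factors.  For the interval `(m ^ 2, m ^ 2 + φ(m)]` of Q1: all but `exp (C √(log N))`.
-/

set_option autoImplicit false

namespace Pool.Agent.Results.MP_36c81c_nt.FewOneParityWindows

/-- The number of integers `z` with `x < z ≤ x + L` that have an even number of prime factors, counted
with multiplicity. -/
noncomputable def evens (x : ℕ) (L : ℝ) : ℕ :=
  {z : ℕ | x < z ∧ (z : ℝ) ≤ (x : ℝ) + L ∧ Even (ArithmeticFunction.cardFactors z)}.ncard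

/-- The number of integers `z` with `x < z ≤ x + L` that have an odd number of prime factors, counted
with multiplicity. -/
noncomputable def odds (x : ℕ) (L : ℝ) : ℕ :=
  {z : ℕ | x < z ∧ (z : ℝ) ≤ (x : ℝ) + L ∧ Odd (ArithmeticFunction.cardFactors z)}.ncard

/-- The integers `m` with `N < m ≤ 2 N` such that for some integer `x` with
`m ^ 2 - m ≤ x ≤ m ^ 2 + m` and some real `L ≥ m / y` the integers of `(x, x + L]` include fewer than
`m ^ (1 - ε)` of one of the two kinds. -/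
def PoorNear (y ε : ℝ) (N : ℕ) : Set ℕ :=
  {m : ℕ | N < m ∧ m ≤ 2 * N ∧ ∃ x : ℕ, m ^ 2 ≤ x + m ∧ x ≤ m ^ 2 + m ∧
    ∃ L : ℝ, (m : ℝ) / y ≤ L ∧
      ¬ ((m : ℝ) ^ (1 - ε) ≤ evens x L ∧ (m : ℝ) ^ (1 - ε) ≤ odds x L)}

/-- The integers `m` with `N < m ≤ 2 N` for which the integers of `(m ^ 2, m ^ 2 + φ(m)]` include fewer
than `m ^ (1 - ε)` of one of the two kinds. -/
def PoorPhi (ε : ℝ) (N : ℕ) : Set ℕ :=
  {m : ℕ | N < m ∧ m ≤ 2 * N ∧
    ¬ ((m : ℝ) ^ (1 - ε) ≤ evens (m ^ 2) (Nat.totient m) ∧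
      (m : ℝ) ^ (1 - ε) ≤ odds (m ^ 2) (Nat.totient m))}

/-- For few `m` a window near `m ^ 2` is poor in one parity. -/
theorem result : ∃ C : ℝ, ∀ ε : ℝ, 0 < ε → ε ≤ 1 → ∃ N₀ : ℕ, ∀ N : ℕ, N₀ ≤ N →
    (∀ y : ℝ, 1 ≤ y → y ^ 10 ≤ (N : ℝ) ^ ε →
      ((PoorNear y ε N).ncard : ℝ) ≤ y ^ 10 * Real.exp (C * Real.sqrt (Real.log N))) ∧
    ((PoorPhi ε N).ncard : ℝ) ≤ Real.exp (C * Real.sqrt (Real.log N)) := by
  obtain ⟨C, _, hC⟩ := Pool.Agent.Helper68.QB.pardU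
  refine ⟨C + 1, fun ε hε hε1 => ?_⟩
  obtain ⟨N₁, hN₁⟩ := Pool.Agent.Helper87.QU.few_uniform hC ε hε hε1
  obtain ⟨N₂, hN₂⟩ := Pool.Agent.Helper87.QU.few_phi hC ε hε hε1
  refine ⟨max N₁ N₂, fun N hN => ⟨fun y hy hyN => ?_, hN₂ N ((le_max_right _ _).trans hN)⟩⟩
  refine (hN₁ N ((le_max_left _ _).trans hN) y hy hyN).trans ?_
  refine mul_le_mul_of_nonneg_left (Real.exp_le_exp.2 ?_) (by positivity)
  have := Real.sqrt_nonneg (Real.log N)
  nlinarith

end Pool.Agent.Results.MP_36c81c_nt.FewOneParityWindows
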