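import Pool.Agent.Helper19.LPF.Zones

/-!
# MP_36c81c_nt: large prime factors in `(n², n² + φ(n)]`, for every `n`
-/

set_option autoImplicit false

namespace Pool.Agent.Results.MP_36c81c_nt.LargePrimeFactor

/-- For every `n ≥ 1`, at least one twentieth of the `φ(n)` integers `m` with `n² < m ≤ n² + φ(n)` have a prime
factor `p > n ^ (21/20)`. -/
theorem result :
    ∀ n : ℕ, 0 < n → Nat.totient n ≤ 20 * {m : ℕ | n ^ 2 < m ∧ m ≤ n ^ 2 + Nat.totient n ∧
      ∃ p : ℕ, p.Prime ∧ p ∣ m ∧ n ^ 21 < p ^ 20}.ncard := by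
  classical
  intro n hn
  have h := Pool.Agent.Helper19.LPF.main n hn
  have e : {m : ℕ | n ^ 2 < m ∧ m ≤ n ^ 2 + Nat.totient n ∧
      ∃ p : ℕ, p.Prime ∧ p ∣ m ∧ n ^ 21 < p ^ 20} = ↑(Pool.Agent.Helper19.LPF.good n) := by
    ext m
    simp only [Pool.Agent.Helper19.LPF.good, Pool.Agent.Helper19.LPF.W, Finset.coe_filter,
      Finset.mem_Ioc, Set.mem_ofPred_eq]
    tauto
  rw [e, Set.ncard_coe_finset]
  exact h

end Pool.Agent.Results.MP_36c81c_nt.LargePrimeFactor
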