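import Mathlib
import Pool.Agent.Helper53.RW.Two

/-!
# Completely multiplicative functions which are constant on two windows of length `κ √x`
-/

set_option autoImplicit false

namespace Pool.Agent.Results.MP_36c81c_nt.TwoWindows

universe u

/-- For real numbers `0 ≤ θ < κ` and every integer `H` there are `c > 0` and `x0` such that for all
real `x ≥ x0` and `x' ≤ x + c x ^ (3 / 4)`, every integer `h ≥ 1` with `|x' - x - h √x| ≤ θ √x`,
every abelian group `G` (written multiplicatively) and every completely multiplicative function `f`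
from the positive integers to `G` which takes only one value on the integers `m` with
`x < m ≤ x + κ √x` and only one value on the integers `m` with `x' < m ≤ x' + κ √x`:
`f k = 1` for all positive integers `k ≤ c x ^ (1 / 8)`, and for all positive integers
`k ≤ c x ^ (1 / 4)` with `k (x' - x) ^ 2 ≤ c x ^ (3 / 2)`; if `h ≤ H` then both values are `1`. -/
theorem result (κ θ : ℝ) (hθ : 0 ≤ θ) (hκ : θ < κ) (H : ℕ) :
    ∃ c : ℝ, 0 < c ∧ ∃ x0 : ℝ, ∀ x x' : ℝ, x0 ≤ x → x' ≤ x + c * x ^ (3 / 4 : ℝ) →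
      ∀ h : ℕ, 1 ≤ h → |x' - x - h * Real.sqrt x| ≤ θ * Real.sqrt x →
      ∀ (G : Type u) [CommGroup G] (f : ℕ → G),
        (∀ a b : ℕ, a ≠ 0 → b ≠ 0 → f (a * b) = f a * f b) →
        (∀ m m' : ℕ, x < m → (m : ℝ) ≤ x + κ * Real.sqrt x → x < m' →
          (m' : ℝ) ≤ x + κ * Real.sqrt x → f m = f m') →
        (∀ m m' : ℕ, x' < m → (m : ℝ) ≤ x' + κ * Real.sqrt x → x' < m' →
          (m' : ℝ) ≤ x' + κ * Real.sqrt x → f m = f m') →
        (∀ k : ℕ, k ≠ 0 → ((k : ℝ) ≤ c * x ^ (1 / 8 : ℝ) ∨ ((k : ℝ) ≤ c * x ^ (1 / 4 : ℝ) ∧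
          (k : ℝ) * (x' - x) ^ 2 ≤ c * x ^ (3 / 2 : ℝ))) → f k = 1) ∧
        (h ≤ H → (∀ m : ℕ, x < m → (m : ℝ) ≤ x + κ * Real.sqrt x → f m = 1) ∧
          ∀ m : ℕ, x' < m → (m : ℝ) ≤ x' + κ * Real.sqrt x → f m = 1) := by
  obtain ⟨c, hc, x0, hmain⟩ := Pool.Agent.Helper53.RW.two.{u} κ θ hθ hκ H
  refine ⟨c, hc, max x0 1, fun x x' hx hup h hh hxx G _ f hf hw hw' => ?_⟩
  have hx1 : 1 ≤ x := (le_max_right _ _).trans hx
  have hx0 : 0 < x := by linarith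
  have e1 : Real.sqrt (Real.sqrt x) = x ^ (1 / 4 : ℝ) := by
    rw [Real.sqrt_eq_rpow, Real.sqrt_eq_rpow, ← Real.rpow_mul hx0.le]
    norm_num
  have e2 : Real.sqrt (Real.sqrt (Real.sqrt x)) = x ^ (1 / 8 : ℝ) := by
    rw [e1, Real.sqrt_eq_rpow, ← Real.rpow_mul hx0.le]
    norm_num
  have e3 : Real.sqrt x * Real.sqrt (Real.sqrt x) = x ^ (3 / 4 : ℝ) := by
    rw [e1, Real.sqrt_eq_rpow, ← Real.rpow_add hx0]
    norm_num
  have e4 : x * Real.sqrt x = x ^ (3 / 2 : ℝ) := by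
    rw [Real.sqrt_eq_rpow]
    nth_rewrite 1 [← Real.rpow_one x]
    rw [← Real.rpow_add hx0]
    norm_num
  have h1 := hmain x x' ((le_max_left _ _).trans hx) h hh hxx (by rw [e3]; linarith) G f hf hw hw'
  rwa [e2, e1, e4] at h1

/-- The case of one window of length `C √x`, `C > 1`. -/
theorem one_window (C : ℝ) (hC : 1 < C) : ∃ c : ℝ, 0 < c ∧ ∃ x0 : ℝ, ∀ x : ℝ, x0 ≤ x →
    ∀ (G : Type u) [CommGroup G] (f : ℕ → G),
      (∀ a b : ℕ, a ≠ 0 → b ≠ 0 → f (a * b) = f a * f b) →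
      (∀ m m' : ℕ, x < m → (m : ℝ) ≤ x + C * Real.sqrt x → x < m' →
        (m' : ℝ) ≤ x + C * Real.sqrt x → f m = f m') →
      ∀ k : ℕ, k ≠ 0 → (k : ℝ) ≤ c * x ^ (1 / 4 : ℝ) → f k = 1 := by
  obtain ⟨c, hc, x0, hmain⟩ := result.{u} (C - 1) 0 le_rfl (by linarith) 1
  refine ⟨c, hc, max (max x0 1) (1 / c ^ 4), fun x hx G _ f hf hW k hk hkx => ?_⟩
  have hx1 : 1 ≤ x := (le_max_right _ _).trans ((le_max_left _ _).trans hx)
  have hx0 : 0 < x := by linarith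
  have hxc : 1 / c ^ 4 ≤ x := (le_max_right _ _).trans hx
  have hs : 0 < Real.sqrt x := Real.sqrt_pos.mpr hx0
  have hx4 : 1 ≤ c * x ^ (1 / 4 : ℝ) := by
    have h1 : (1 / c) ^ 4 ≤ (x ^ (1 / 4 : ℝ)) ^ 4 := by
      rw [← Real.rpow_natCast (x ^ (1 / 4 : ℝ)), ← Real.rpow_mul hx0.le, div_pow, one_pow]
      norm_num
      rw [← one_div]
      exact hxc
    have h2 : 1 / c ≤ x ^ (1 / 4 : ℝ) := le_of_pow_le_pow_left₀ (by norm_num) (by positivity) h1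
    rw [div_le_iff₀ hc] at h2
    linarith
  have hsq : Real.sqrt x * x ^ (1 / 4 : ℝ) = x ^ (3 / 4 : ℝ) := by
    rw [Real.sqrt_eq_rpow, ← Real.rpow_add hx0]
    norm_num
  have hup : x + Real.sqrt x ≤ x + c * x ^ (3 / 4 : ℝ) := by
    have h1 : Real.sqrt x * 1 ≤ Real.sqrt x * (c * x ^ (1 / 4 : ℝ)) :=
      mul_le_mul_of_nonneg_left hx4 hs.le
    have h2 : Real.sqrt x * (c * x ^ (1 / 4 : ℝ)) = c * x ^ (3 / 4 : ℝ) := by rw [← hsq]; ring
    linarith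
  have hmm := hmain x (x + Real.sqrt x) ((le_max_left _ _).trans ((le_max_left _ _).trans hx)) hup 1
    le_rfl (by simp) G f hf
    (fun m m' a b c' d => hW m m' a (by nlinarith) c' (by nlinarith))
    (fun m m' a b c' d => hW m m' (by linarith) (by linarith) (by linarith) (by linarith))
  refine hmm.1 k hk (Or.inr ⟨hkx, ?_⟩)
  have h3 : (x + Real.sqrt x - x) ^ 2 = x := by
    rw [add_sub_cancel_left, Real.sq_sqrt hx0.le]
  have h4 : x ^ (1 / 4 : ℝ) * x ≤ x ^ (3 / 2 : ℝ) := by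
    nth_rewrite 2 [← Real.rpow_one x]
    rw [← Real.rpow_add hx0]
    exact Real.rpow_le_rpow_of_exponent_le hx1 (by norm_num)
  rw [h3]
  have h5 := mul_le_mul_of_nonneg_right hkx hx0.le
  have h6 := mul_le_mul_of_nonneg_left h4 hc.le
  linarith [h5, h6, show c * x ^ (1 / 4 : ℝ) * x = c * (x ^ (1 / 4 : ℝ) * x) by ring]

/-- The case of the windows behind two squares. -/
theorem squares (κ : ℝ) (hκ : 0 < κ) : ∃ c : ℝ, 0 < c ∧ ∃ n0 : ℕ, ∀ n n' : ℕ, n0 ≤ n → n < n' →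
    (n' : ℝ) ≤ n + c * Real.sqrt n →
    ∀ (G : Type u) [CommGroup G] (f : ℕ → G),
      (∀ a b : ℕ, a ≠ 0 → b ≠ 0 → f (a * b) = f a * f b) →
      (∀ m m' : ℕ, (n : ℝ) ^ 2 < m → (m : ℝ) ≤ (n : ℝ) ^ 2 + κ * n → (n : ℝ) ^ 2 < m' →
        (m' : ℝ) ≤ (n : ℝ) ^ 2 + κ * n → f m = f m') →
      (∀ m m' : ℕ, (n' : ℝ) ^ 2 < m → (m : ℝ) ≤ (n' : ℝ) ^ 2 + κ * n → (n' : ℝ) ^ 2 < m' →
        (m' : ℝ) ≤ (n' : ℝ) ^ 2 + κ * n → f m = f m') →
      ∀ k : ℕ, k ≠ 0 → (k : ℝ) ≤ c * (n : ℝ) ^ (1 / 4 : ℝ) → f k = 1 := by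
  obtain ⟨c, hc, x0, hmain⟩ := result.{u} κ (κ / 2) (by linarith) (by linarith) 0
  obtain ⟨d, hd⟩ : ∃ d, d = min (min c 1) (κ / 2) / 3 := ⟨_, rfl⟩
  have hdc : 3 * d ≤ c := by
    rw [hd]; linarith [(min_le_left (min c 1) (κ / 2)).trans (min_le_left c 1)]
  have hd1 : 3 * d ≤ 1 := by
    rw [hd]; linarith [(min_le_left (min c 1) (κ / 2)).trans (min_le_right c 1)]
  have hdκ : 3 * d ≤ κ / 2 := by rw [hd]; linarith [min_le_right (min c 1) (κ / 2)]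
  have hd0 : 0 < d := by
    rw [hd]
    have : 0 < min (min c 1) (κ / 2) := lt_min (lt_min hc one_pos) (by linarith)
    linarith
  obtain ⟨n0, hn0⟩ := exists_nat_ge (max x0 1)
  refine ⟨d, hd0, n0, fun n n' hn hnn hup G _ f hf hw hw' k hk hkx => ?_⟩
  have hnr : (n0 : ℝ) ≤ n := by exact_mod_cast hn
  have hn1 : (1 : ℝ) ≤ n := ((le_max_right _ _).trans hn0).trans hnr
  have hx0n : x0 ≤ n := ((le_max_left _ _).trans hn0).trans hnr
  have hnp : (0 : ℝ) < n := by linarith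
  have hnn2 : (n : ℝ) ≤ (n : ℝ) ^ 2 := by
    have : (n : ℝ) * 1 ≤ n * n := mul_le_mul_of_nonneg_left hn1 hnp.le
    linarith [this, show (n : ℝ) * n = n ^ 2 by ring]
  have hsq : Real.sqrt ((n : ℝ) ^ 2) = n := Real.sqrt_sq hnp.le
  obtain ⟨q, hqd⟩ : ∃ q, q = Real.sqrt (n : ℝ) := ⟨_, rfl⟩
  have hq0 : 0 < q := by rw [hqd]; exact Real.sqrt_pos.mpr hnp
  have hqn : q ^ 2 = n := by rw [hqd]; exact Real.sq_sqrt hnp.le
  have hq1 : 1 ≤ q := by rw [hqd]; exact Real.one_le_sqrt.mpr hn1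
  have hqle : q ≤ n := by
    have : q * 1 ≤ q * q := mul_le_mul_of_nonneg_left hq1 hq0.le
    linarith [this, show q * q = q ^ 2 by ring]
  rw [← hqd] at hup
  have hj0 : (0 : ℝ) < (n' : ℝ) - n := by
    have : (n : ℝ) < n' := by exact_mod_cast hnn
    linarith
  have hdq : (n' : ℝ) - n ≤ d * q := by linarith
  have hdn : (n' : ℝ) - n ≤ n := by
    have : d * q ≤ 1 * q := mul_le_mul_of_nonneg_right (by linarith) hq0.le
    linarith
  have e34 : ((n : ℝ) ^ 2) ^ (3 / 4 : ℝ) = n * q := by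
    rw [← Real.rpow_natCast, ← Real.rpow_mul hnp.le, hqd, Real.sqrt_eq_rpow]
    nth_rewrite 2 [← Real.rpow_one (n : ℝ)]
    rw [← Real.rpow_add hnp]
    norm_num
  have e18 : ((n : ℝ) ^ 2) ^ (1 / 8 : ℝ) = (n : ℝ) ^ (1 / 4 : ℝ) := by
    rw [← Real.rpow_natCast, ← Real.rpow_mul hnp.le]
    norm_num
  obtain ⟨i, hi⟩ := Nat.exists_eq_add_of_lt hnn
  have hir : (n' : ℝ) - n = (i : ℝ) + 1 := by rw [hi]; push_cast; ring
  refine (hmain ((n : ℝ) ^ 2) ((n' : ℝ) ^ 2) (by linarith) ?_ (2 * (i + 1)) (by omega) ?_ G f hf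
    (by rw [hsq]; exact hw) (by rw [hsq]; exact hw')).1 k hk ?_
  · rw [e34]
    have h1 : ((n' : ℝ) - n) * ((n' : ℝ) + n) ≤ d * q * (3 * n) :=
      mul_le_mul hdq (by linarith) (by positivity) (by positivity)
    have h2 : 3 * d * (n * q) ≤ c * (n * q) := mul_le_mul_of_nonneg_right hdc (by positivity)
    have h3 : (n' : ℝ) ^ 2 - n ^ 2 = ((n' : ℝ) - n) * ((n' : ℝ) + n) := by ring
    linarith
  · rw [hsq]
    have h1 : (n' : ℝ) ^ 2 - (n : ℝ) ^ 2 - ((2 * (i + 1) : ℕ) : ℝ) * n = ((n' : ℝ) - n) ^ 2 := by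
      push_cast
      rw [← hir]
      ring
    rw [h1, abs_of_nonneg (by positivity)]
    have h2 : ((n' : ℝ) - n) ^ 2 ≤ (d * q) ^ 2 := pow_le_pow_left₀ hj0.le hdq 2
    have h3 : (d * q) ^ 2 = d ^ 2 * n := by rw [mul_pow, hqn]
    have h4 : d ^ 2 ≤ κ / 2 := by
      have : d * d ≤ 1 * d := mul_le_mul_of_nonneg_right (by linarith) hd0.le
      linarith [this, show d * d = d ^ 2 by ring]
    have h5 : d ^ 2 * n ≤ κ / 2 * n := mul_le_mul_of_nonneg_right h4 hnp.le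
    linarith
  · left
    rw [e18]
    have h0 : 0 ≤ (n : ℝ) ^ (1 / 4 : ℝ) := by positivity
    exact hkx.trans (mul_le_mul_of_nonneg_right (by linarith) h0)

open ArithmeticFunction in
/-- The windows of Q1: for every `κ > 0` and `n` large the interval `[n, n + c √n]` contains at most
one `m` with `φ(m) ≥ κ m` such that the number of prime factors has only one parity on
`(m ^ 2, m ^ 2 + φ(m)]`. -/
theorem at_most_one (κ : ℝ) (hκ : 0 < κ) : ∃ c : ℝ, 0 < c ∧ ∃ n0 : ℕ, ∀ n m m' : ℕ, n0 ≤ n →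
    n ≤ m → m < m' → (m' : ℝ) ≤ n + c * Real.sqrt n → κ * m ≤ Nat.totient m →
    κ * m' ≤ Nat.totient m' →
    ¬ ((∀ a b : ℕ, m ^ 2 < a → a ≤ m ^ 2 + Nat.totient m → m ^ 2 < b →
        b ≤ m ^ 2 + Nat.totient m → (-1 : ℤˣ) ^ cardFactors a = (-1) ^ cardFactors b) ∧
      ∀ a b : ℕ, m' ^ 2 < a → a ≤ m' ^ 2 + Nat.totient m' → m' ^ 2 < b →
        b ≤ m' ^ 2 + Nat.totient m' → (-1 : ℤˣ) ^ cardFactors a = (-1) ^ cardFactors b) := by
  obtain ⟨c, hc, n1, h⟩ := squares.{0} κ hκ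
  obtain ⟨n2, hn2⟩ := exists_nat_ge ((2 / c) ^ 4)
  refine ⟨c, hc, max n1 n2, ?_⟩
  rintro n m m' hn hnm hmm hup h1 h2 ⟨he, he'⟩
  have hnmr : (n : ℝ) ≤ m := by exact_mod_cast hnm
  have hm0 : (0 : ℝ) ≤ m := Nat.cast_nonneg m
  have hup' : (m' : ℝ) ≤ m + c * Real.sqrt m := by
    have h3 := mul_le_mul_of_nonneg_left (Real.sqrt_le_sqrt hnmr) hc.le
    linarith
  have hmmr : (m : ℝ) ≤ m' := by exact_mod_cast hmm.le
  have hkk : κ * m ≤ κ * m' := mul_le_mul_of_nonneg_left hmmr hκ.le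
  have h3 : (2 / c) ^ 4 ≤ (m : ℝ) := by
    have h4 : (n2 : ℝ) ≤ m := by exact_mod_cast (le_max_right _ _).trans (hn.trans hnm)
    linarith
  have h5 : 2 / c ≤ (m : ℝ) ^ (1 / 4 : ℝ) := by
    refine le_of_pow_le_pow_left₀ (n := 4) (by norm_num) (by positivity) ?_
    rw [← Real.rpow_natCast ((m : ℝ) ^ (1 / 4 : ℝ)), ← Real.rpow_mul hm0]
    norm_num
    rw [div_pow] at h3
    norm_num at h3
    rw [div_pow]
    norm_num
    exact h3
  rw [div_le_iff₀ hc] at h5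
  have hk2 := h m m' ((le_max_left _ _).trans (hn.trans hnm)) hmm hup' ℤˣ
    (fun a => (-1) ^ cardFactors a)
    (fun a b ha hb => by rw [cardFactors_mul ha hb, pow_add])
    (fun a b a1 a2 b1 b2 => he a b (by exact_mod_cast a1)
      (by
        have : (a : ℝ) ≤ ((m ^ 2 + Nat.totient m : ℕ) : ℝ) := by push_cast; linarith
        exact_mod_cast this) (by exact_mod_cast b1)
      (by
        have : (b : ℝ) ≤ ((m ^ 2 + Nat.totient m : ℕ) : ℝ) := by push_cast; linarith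
        exact_mod_cast this))
    (fun a b a1 a2 b1 b2 => he' a b (by exact_mod_cast a1)
      (by
        have : (a : ℝ) ≤ ((m' ^ 2 + Nat.totient m' : ℕ) : ℝ) := by push_cast; linarith
        exact_mod_cast this) (by exact_mod_cast b1)
      (by
        have : (b : ℝ) ≤ ((m' ^ 2 + Nat.totient m' : ℕ) : ℝ) := by push_cast; linarith
        exact_mod_cast this))
    2 (by norm_num) (by push_cast; linarith)
  rw [cardFactors_apply_prime Nat.prime_two] at hk2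
  exact absurd hk2 (by decide)

end Pool.Agent.Results.MP_36c81c_nt.TwoWindows
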